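import Mathlib
import Pool.Agent.U685.LM.Final

/-!
The arithmetic Kakeya inequality for sets of words of digits with bounded line multiplicity.

Outline.  For a random point `V` of a finite subset of `ℤ ^ 2` with at most `m` points on every line
of the directions in `S`, the mean over `r ∈ S` of the conditional entropies `H(V | π_r V)` is at most
`η H(V)`, `η = 2 log m / log |S| + (5/2) / |S|^(1/2)`: collisions of points of small probability cost
at most `log m` each, and a point of large probability collides with every other point for at most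
one slope.  The inequality is then turned into its functional form (Gibbs) and iterated along the
tree of the words.
-/

namespace Pool.Agent.Results.MP_169869_co.BoundedLineMultiplicity

open Finset Pool.Agent.U685.LM

/-- the largest size of a projection of `A` with slope in `S` -/
def big (S : Finset ℚ) (A : Finset (ℤ × ℤ)) : ℕ := S.sup fun r => (proj r A).card

/-- See the claim file. -/
theorem result :
    -- (1) at most `m` points on every line
    (∀ ε : ℝ, 0 < ε → ε ≤ 1 → ∀ m : ℕ, 1 ≤ m → ∀ S : Finset ℚ, Enough ε m S.card →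
      ∀ (n : ℕ) (A : Finset (Fin n → ℤ × ℤ)), Branch m S A →
        (A.card : ℝ) ≤ (bigD S A : ℝ) ^ (1 + ε) ∧
        ∃ M₀ : ℕ, ∀ M : ℕ, M₀ ≤ M → ((proj (-1) (A.image (ev M))).card : ℝ) ≤
          (big S (A.image (ev M)) : ℝ) ^ (1 + ε)) ∧
    -- (2) sets closed under cancellation
    (∀ ε : ℝ, 0 < ε → ε ≤ 1 → ∀ S : Finset ℚ, (0 : ℚ) ∉ S → Enough ε 2 S.card →
      ∀ (n : ℕ) (A : Finset (Fin n → ℤ × ℤ)), Cancels A →
        ((projD (-1) A).card : ℝ) ≤ (bigD S A : ℝ) ^ (1 + ε) ∧
        ∃ M₀ : ℕ, ∀ M : ℕ, M₀ ≤ M → ((proj (-1) (A.image (ev M))).card : ℝ) ≤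
          (big S (A.image (ev M)) : ℝ) ^ (1 + ε)) := by
  have hbig : ∀ (S : Finset ℚ) (n : ℕ) (A : Finset (Fin n → ℤ × ℤ)), ∃ M₀ : ℕ, ∀ M : ℕ, M₀ ≤ M →
      big S (A.image (ev M)) = bigD S A := by
    intro S n A
    obtain ⟨M₀, h⟩ := card_proj_ev S A
    refine ⟨M₀, fun M hM => ?_⟩
    exact Finset.sup_congr rfl fun r hr => h M hM r hr
  refine ⟨fun ε hε hε1 m hm S hk n A hB => ?_, fun ε hε hε1 S h0 hk n A hA => ?_⟩
  · have h1 := explicit ε hε hε1 m hm S hk n A hB
    refine ⟨h1, ?_⟩
    obtain ⟨M₀, h⟩ := hbig S n A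
    refine ⟨M₀, fun M hM => ?_⟩
    rw [h M hM]
    refine le_trans ?_ h1
    exact_mod_cast Finset.card_image_le.trans Finset.card_image_le
  · have h1 := cancel ε hε hε1 S h0 hk n A hA
    refine ⟨h1, ?_⟩
    obtain ⟨M₀, h⟩ := hbig S n A
    refine ⟨M₀, fun M hM => ?_⟩
    rw [h M hM]
    refine le_trans ?_ h1
    rw [proj_ev]
    exact_mod_cast Finset.card_image_le

end Pool.Agent.Results.MP_169869_co.BoundedLineMultiplicity
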