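import Pool.Agent.U422.KakZ

/-!
# The arithmetic Kakeya conjecture for sets closed under operations of congruence modular type

Let `T` be a finite set of at least two slopes in `ℚ ∪ {∞}`. We consider two classes of finite sets
`A ⊂ ℤ × ℤ`.

* *Gumm-closed* sets: there are **some** (arbitrary) Gumm operations on the projections `π_r(A)`,
  `r ∈ T`, such that `A` is closed under them: ternary operations `f_0, …, f_m, p` with
  `f_i(x,y,x) = x`, `f_0(x,x,y) = x`, `f_i(x,y,y) = f_{i+1}(x,x,y)`, `f_m(x,y,y) = p(x,y,y)`,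
  `p(x,x,y) = y`, or the same where `f_i(x,x,y)` and `f_i(x,y,y)` change their roles for some `i`. The
  operations are unrelated to the additive structure. Majority operations, near unanimity
  operations, Jónsson operations and Mal'cev operations are special cases; such operations exist
  as soon as the projections carry the structure of algebras from one congruence modular
  variety and `A` is a subalgebra of their product.
* *Parallelogram-closed* sets: if `z, z + u, z + v ∈ A` with `π_r(u) = 0`, `π_s(v) = 0`, `r ≠ s` in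
  `T`, then `z + u + v ∈ A`. In every direction of `T` the set may be arbitrary.

1. `|A|^{|T| - 1} ≤ ∏_{r ∈ T} |π_r(A)|` for all these sets. There is equality, for all `T`, for
   parallelogram-closed sets of `q^{|T|}` points.
2. For every `ε > 0` there are a finite set `T` of slopes different from `-1` and `δ > 0` such that
   `|π_{-1}(A)| ≤ (max_r |π_r(A)|)^{1+ε}` for all `A` which are unions of at most `|π_{-1}(A)|^δ`
   such sets.

Idea of the proof. Let `θ_r` be the kernels of the projections, and `ψ_r` the join of the other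
`θ_s`. Gumm's operations give `p(a,b,b) = a` for `(a, b) ∈ θ_r ∧ ψ_r`. Let `v = b - a`. For `c ∈ A`
with `c ψ_r a` the points `d = c + v` and, for `c' θ_s c`, `p(d, c, c') = c' + v` are in `A` too: the
translation by `v` can be continued along the lines of all directions but the one of `r`. As
`a ψ_r b`, this leads from `a` to `b = a + v`, to `a + 2 v` and so on; as `A` is finite, `v = 0`. So
the `θ_r` are independent congruences. By the modular law the meet of all `ψ_r` is `0`, and the
inequality of Loomis and Whitney can be applied. In parallelogram-closed sets the `θ_r` commute, and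
this replaces the operations. (In groups with torsion the theorem is false.)
-/

set_option autoImplicit false

namespace Pool.Agent.Results.MP_169869_co.ModularClosed

open Finset Pool.Agent.R181.Maj Pool.Agent.U422.Gumm Pool.Agent.U422.Kak

/-- the largest size of a projection of `A` with slope in `T` -/
def big (T : Finset (Option ℚ)) (A : Finset (ℤ × ℤ)) : ℕ := T.sup fun r => #(A.image (proj r))

theorem bound_big (T : Finset (Option ℚ)) (hT : 2 ≤ #T) (A : Finset (ℤ × ℤ))
    (hA : GummClosed T A ∨ ParallelogramClosed T A) : #A ^ (#T - 1) ≤ big T A ^ #T :=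
  (bound_one T hT A hA).trans
    (prod_le_pow_card _ _ _ fun _ hr => Finset.le_sup (f := fun r => #(A.image (proj r))) hr)

theorem big_mono (T : Finset (Option ℚ)) {A B : Finset (ℤ × ℤ)} (h : A ⊆ B) :
    big T A ≤ big T B :=
  Finset.sup_mono_fun fun _ _ => card_le_card (image_subset_image h)

theorem union_bound (ε : ℝ) (hε : 0 < ε) : ∃ T : Finset (Option ℚ), some (-1) ∉ T ∧
    ∃ δ : ℝ, 0 < δ ∧ ∀ (A : Finset (ℤ × ℤ)) (L : ℕ) (B : Fin L → Finset (ℤ × ℤ)),
      (∀ i, B i ⊆ A) → (∀ a ∈ A, ∃ i, a ∈ B i) →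
      (∀ i, GummClosed T (B i) ∨ ParallelogramClosed T (B i)) →
      (L : ℝ) ≤ (#(A.image (proj (some (-1)))) : ℝ) ^ δ →
      (#(A.image (proj (some (-1)))) : ℝ) ≤ (big T A : ℝ) ^ (1 + ε) := by
  classical
  obtain ⟨k, hk⟩ := exists_nat_gt (2 / ε)
  set K : ℕ := k + 2 with hK
  set T : Finset (Option ℚ) := (range (K + 1)).image fun i : ℕ => some (i : ℚ) with hT
  have hTc : #T = K + 1 := by
    rw [hT, card_image_of_injective _ (fun a b h => by exact_mod_cast Option.some.inj h),
      card_range]
  have hKpos : (0 : ℝ) < K := by positivity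
  have h1K : 1 / (K : ℝ) ≤ ε / 2 := by
    have h1 : 2 / ε < K := hk.trans (by rw [hK]; push_cast; linarith)
    rw [div_lt_iff₀ hε] at h1
    rw [div_le_div_iff₀ hKpos (by norm_num)]
    linarith
  refine ⟨T, ?_, ε / (2 * (1 + ε)), by positivity, ?_⟩
  · rw [hT, mem_image]
    rintro ⟨i, -, hi⟩
    have h0 : (0 : ℚ) ≤ (i : ℚ) := Nat.cast_nonneg i
    rw [Option.some.inj hi] at h0
    norm_num at h0
  · intro A L B hBA hcov hB hL
    set δ : ℝ := ε / (2 * (1 + ε)) with hδ
    set M : ℝ := (big T A : ℝ) with hM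
    set N : ℝ := (#(A.image (proj (some (-1)))) : ℝ) with hN
    rcases A.eq_empty_or_nonempty with rfl | hne
    · have : N = 0 := by rw [hN]; simp
      rw [this]
      positivity
    have hM1 : (1 : ℝ) ≤ M := by
      have h0 : some ((0 : ℕ) : ℚ) ∈ T := by
        rw [hT]
        exact mem_image.2 ⟨0, mem_range.2 (by omega), rfl⟩
      have h1 : 1 ≤ #(A.image (proj (some ((0 : ℕ) : ℚ)))) := card_pos.2 (hne.image _)
      have h2 : #(A.image (proj (some ((0 : ℕ) : ℚ)))) ≤ big T A :=
        Finset.le_sup (f := fun r => #(A.image (proj r))) h0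
      rw [hM]
      exact_mod_cast h1.trans h2
    have hN1 : (1 : ℝ) ≤ N := by
      have : 1 ≤ #(A.image (proj (some (-1)))) := card_pos.2 (hne.image _)
      rw [hN]
      exact Nat.one_le_cast.2 this
    have h2 : ∀ i, (#(B i) : ℝ) ≤ M ^ (1 + 1 / (K : ℝ)) := by
      intro i
      have h3 := bound_big T (by rw [hTc]; omega) (B i) (hB i)
      rw [hTc, Nat.add_sub_cancel] at h3
      have h4 : #(B i) ^ K ≤ big T A ^ (K + 1) :=
        h3.trans (Nat.pow_le_pow_left (big_mono T (hBA i)) _)
      refine le_of_pow_le_pow_left₀ (n := K) (by omega) (by positivity) ?_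
      have h5 : (M ^ (1 + 1 / (K : ℝ))) ^ K = M ^ (K + 1) := by
        rw [← Real.rpow_natCast, ← Real.rpow_mul (by positivity), ← Real.rpow_natCast]
        congr 1
        push_cast
        field_simp
      rw [h5, hM, ← Nat.cast_pow, ← Nat.cast_pow]
      exact Nat.cast_le.2 h4
    have h6 : (#A : ℝ) ≤ L * M ^ (1 + 1 / (K : ℝ)) := by
      have h7 : #A ≤ ∑ i : Fin L, #(B i) := by
        have : A ⊆ univ.biUnion B := fun a ha => by
          obtain ⟨i, hi⟩ := hcov a ha
          exact mem_biUnion.2 ⟨i, mem_univ _, hi⟩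
        exact (card_le_card this).trans card_biUnion_le
      calc (#A : ℝ) ≤ ((∑ i : Fin L, #(B i) : ℕ) : ℝ) := by exact_mod_cast h7
        _ = ∑ i : Fin L, (#(B i) : ℝ) := by push_cast; rfl
        _ ≤ ∑ _i : Fin L, M ^ (1 + 1 / (K : ℝ)) := sum_le_sum fun i _ => h2 i
        _ = _ := by rw [sum_const, card_univ, Fintype.card_fin, nsmul_eq_mul]
    have h8 : N ≤ #A := by
      have : #(A.image (proj (some (-1)))) ≤ #A := card_image_le
      rw [hN]
      exact Nat.cast_le.2 this
    have h9 : N ≤ N ^ δ * M ^ (1 + ε / 2) := by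
      refine h8.trans (h6.trans (mul_le_mul hL ?_ (by positivity) (by positivity)))
      exact Real.rpow_le_rpow_of_exponent_le hM1 (by linarith)
    have hδ1 : δ < 1 := by
      rw [hδ, div_lt_one (by positivity)]
      linarith
    have hN0 : 0 < N := by linarith
    have h10 : N ^ (1 - δ) ≤ M ^ (1 + ε / 2) := by
      have h11 : N ^ δ * N ^ (1 - δ) = N := by
        rw [← Real.rpow_add hN0]
        simp
      have h12 : N ^ δ * N ^ (1 - δ) ≤ N ^ δ * M ^ (1 + ε / 2) := by rw [h11]; exact h9
      exact le_of_mul_le_mul_left h12 (Real.rpow_pos_of_pos hN0 _)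
    have h13 : 1 - δ = (1 + ε / 2) / (1 + ε) := by
      rw [hδ]
      field_simp
      ring
    have h14 : (N ^ (1 - δ)) ^ (1 / (1 - δ)) ≤ (M ^ (1 + ε / 2)) ^ (1 / (1 - δ)) :=
      Real.rpow_le_rpow (by positivity) h10 (by
        have : 0 < 1 - δ := by linarith
        positivity)
    rw [← Real.rpow_mul hN0.le, ← Real.rpow_mul (by linarith), mul_one_div_cancel (by linarith),
      Real.rpow_one] at h14
    refine h14.trans (le_of_eq ?_)
    congr 1
    rw [h13]
    field_simp

/-- **Theorem.** (1) `|A|^{|T| - 1} ≤ ∏_{r ∈ T} |π_r(A)|` for all finite sets `T` of at least two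
slopes in `ℚ ∪ {∞}` and all Gumm-closed or parallelogram-closed `A`. (2) Equality is possible for
all `T`, with `|A| = q^{|T|}` for all `q`. (3) For every `ε > 0` there are a finite set `T` of slopes
different from `-1` and `δ > 0` such that `|π_{-1}(A)| ≤ (max_{r ∈ T} |π_r(A)|)^{1 + ε}` for all `A`
which are unions of `L` such sets with `L ≤ |π_{-1}(A)|^δ`. (4) Sets closed under majority
operations, or under Mal'cev operations, are Gumm-closed. -/
theorem result :
    (∀ T : Finset (Option ℚ), 2 ≤ #T → ∀ A : Finset (ℤ × ℤ),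
      (GummClosed T A ∨ ParallelogramClosed T A) →
      #A ^ (#T - 1) ≤ ∏ r ∈ T, #(A.image (proj r))) ∧
    (∀ T : Finset (Option ℚ), 2 ≤ #T → ∀ q : ℕ, ∃ A : Finset (ℤ × ℤ),
      ParallelogramClosed T A ∧ #A = q ^ #T ∧ ∀ r ∈ T, #(A.image (proj r)) = q ^ (#T - 1)) ∧
    (∀ ε : ℝ, 0 < ε → ∃ T : Finset (Option ℚ), some (-1) ∉ T ∧ ∃ δ : ℝ, 0 < δ ∧
      ∀ (A : Finset (ℤ × ℤ)) (L : ℕ) (B : Fin L → Finset (ℤ × ℤ)),
        (∀ i, B i ⊆ A) → (∀ a ∈ A, ∃ i, a ∈ B i) →
        (∀ i, GummClosed T (B i) ∨ ParallelogramClosed T (B i)) →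
        (L : ℝ) ≤ (#(A.image (proj (some (-1)))) : ℝ) ^ δ →
        (#(A.image (proj (some (-1)))) : ℝ) ≤ (big T A : ℝ) ^ (1 + ε)) ∧
    (∀ (T : Finset (Option ℚ)) (A : Finset (ℤ × ℤ)) (p : Option ℚ → ℚ → ℚ → ℚ → ℚ),
      ((∀ r ∈ T, IsMaj (p r)) ∨ ∀ r ∈ T, IsMalcev (p r)) →
      (∀ a ∈ A, ∀ b ∈ A, ∀ c ∈ A, ∃ d ∈ A, ∀ r ∈ T,
        proj r d = p r (proj r a) (proj r b) (proj r c)) → GummClosed T A) := by
  refine ⟨bound_one, grid_exists, union_bound, ?_⟩
  rintro T A p (h | h) hA
  · exact ⟨0, fun _ => true, fun r _ => p r, fun _ _ _ z => z,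
      fun r hr => gumm_of_maj (h r hr), fun _ => hA, fun a _ b _ c hc => ⟨c, hc, fun _ _ => rfl⟩⟩
  · exact ⟨0, fun _ => true, fun _ _ x _ _ => x, p, fun r hr => gumm_of_malcev (h r hr),
      fun _ a ha b _ c _ => ⟨a, ha, fun _ _ => rfl⟩, hA⟩

end Pool.Agent.Results.MP_169869_co.ModularClosed
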