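import Mathlib
import Pool.Agent.U999.OD.TG2

set_option autoImplicit false

/-!
# MP_169869_co: the arithmetic Kakeya conjecture and the total variation of a section

Let `S` be any finite set of rational slopes different from `-1`; with `∞` there are
`k = |S| + 1` slopes.  Let `A ⊆ ℤ × ℤ` be ANY finite set and choose points of `A`, one for each of
`n` differences `d_0 < d_1 < … < d_(n-1)` (for instance for all differences of `A`).  The total
variation of this section is `V = ∑ |y_(i+1) - y_i|`, where `y_i` is the second coordinate of the
point with the difference `d_i`.  The least possible size of the largest projection depends on the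
order of magnitude of `V`:

* up to `c n` all sets are trivial: some projection has at least `c n` elements (`S ≠ ∅`);
* between `C n` and `c n log n` the exponent is `1 - 1/k`, for EVERY set of slopes;
* from `C n log n` on every exponent which is possible for arbitrary finite sets is possible for
  sections over the whole interval `{0, …, n - 1}`, for all `n`.

Proof of the lower bounds.  The index set is cut into `b`-adic intervals.  Since
`d_(i+1) - d_i ≥ 1`, on each interval all but at most one of the `k` functions `F = y`,
`F = d + (1 + r) y` have an increment of at least a constant times the length of the interval.  The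
sum of the moduli of the increments of `F` over all intervals of one scale increases with the number
of intervals, from `|F (n - 1) - F 0|` to the variation of `F`; because `d` is monotone, the total
growth is at most a constant times `V`.  So if `V` is smaller than `c n log n`, then at almost all
scales of almost all branches `F` hardly turns back within an interval; if its increment is large
there, the values of `F` in different subintervals are essentially different.  One of the `k`
functions has a large increment for at least the proportion `1 - 1/k` of the scales.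

Constructions.  `C n`: digit expansions to the base `n ^ (1/k)` with one of the critical slopes in
each of the `k` digits.  `C n log n`: let `A` be any finite set; the tensor powers of `A` (with one
point for each difference) are mapped by a random linear form to `ℤ/p`, where `p` is a prime of about
the size of the number of differences of the power.  The differences then fill a positive proportion
of `ℤ/p`, `O(log p)` translates of them cover it, and the sections `g₀` so obtained over the whole
interval `{0, …, p - 1}` have the exponent of `A` up to `o(1)`.  Expansions to the base `p` with the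
digit map `g₀` have variation `O(n log n)` and keep the exponent for all `n`.
-/

open Finset

namespace Pool.Agent.Results.MP_169869_co.SectionVariation

/-- the projection `π_r(A) = {x + r y : (x, y) ∈ A}` -/
def proj (r : ℚ) (A : Finset (ℤ × ℤ)) : Finset ℚ :=
  A.image (fun p : ℤ × ℤ => (p.1 : ℚ) + r * (p.2 : ℚ))

/-- the projection `π_∞(A) = {y : (x, y) ∈ A}` -/
def projInf (A : Finset (ℤ × ℤ)) : Finset ℚ := A.image (fun p : ℤ × ℤ => (p.2 : ℚ))

/-- the largest size of a projection of `A` with slope `∞` or in `S` -/
def big (S : Finset ℚ) (A : Finset (ℤ × ℤ)) : ℕ :=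
  max (projInf A).card (S.sup fun r => (proj r A).card)

/-- `A` contains `n` points with strictly increasing differences `x - y`, whose second coordinates
have total variation at most `V` -/
def HasSection (A : Finset (ℤ × ℤ)) (n : ℕ) (V : ℝ) : Prop :=
  ∃ P : ℕ → ℤ × ℤ, (∀ i, i < n → P i ∈ A) ∧
    (∀ i, i + 1 < n → (P i).1 - (P i).2 < (P (i + 1)).1 - (P (i + 1)).2) ∧
    ((∑ i ∈ range (n - 1), |(P (i + 1)).2 - (P i).2| : ℤ) : ℝ) ≤ V

theorem result (S : Finset ℚ) (hS : (-1 : ℚ) ∉ S) :
    -- variation at most `c n`
    (S.Nonempty → ∃ c : ℝ, 0 < c ∧ ∀ (n : ℕ) (A : Finset (ℤ × ℤ)),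
      HasSection A n (c * n) → c * n ≤ (big S A : ℝ)) ∧
    -- variation at most `c n log n`
    (∀ ε : ℝ, 0 < ε → ∃ c : ℝ, 0 < c ∧ ∃ n₀ : ℕ, ∀ n : ℕ, n₀ ≤ n → ∀ A : Finset (ℤ × ℤ),
      HasSection A n (c * n * Real.log n) →
        (n : ℝ) ^ (1 - 1 / ((S.card : ℝ) + 1) - ε) ≤ (big S A : ℝ)) ∧
    -- this is sharp, already with variation `C n`
    (∃ C : ℝ, ∀ n : ℕ, 1 ≤ n → ∃ A : Finset (ℤ × ℤ),
      proj (-1) A = (range n).image (fun i : ℕ => (i : ℚ)) ∧ HasSection A n (C * n) ∧
        (big S A : ℝ) ≤ C * (n : ℝ) ^ (1 - 1 / ((S.card : ℝ) + 1))) ∧
    -- with variation `C n log n` all exponents of arbitrary finite sets are reached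
    (∀ (B : Finset (ℤ × ℤ)) (κ : ℝ), 2 ≤ (proj (-1) B).card →
      (big S B : ℝ) < ((proj (-1) B).card : ℝ) ^ κ →
      ∃ C : ℝ, ∀ n : ℕ, 1 ≤ n → ∃ A : Finset (ℤ × ℤ),
        proj (-1) A = (range n).image (fun i : ℕ => (i : ℚ)) ∧
          HasSection A n (C * n * (1 + Real.log n)) ∧
          (big S A : ℝ) ≤ C * (n : ℝ) ^ κ) := by
  refine ⟨Pool.Agent.U999.OD.TV.lowS3 S hS, Pool.Agent.U999.OD.TV.lowS S hS, ?_, ?_⟩
  · obtain ⟨C, h⟩ := Pool.Agent.U999.OD.TV.up1 S hS
    refine ⟨C, fun n hn => ?_⟩
    obtain ⟨g, hg, hb⟩ := h n hn
    exact ⟨Pool.Agent.U999.OD.TV.graph g (range n), Pool.Agent.U999.OD.TV.diff_graph g n,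
      Pool.Agent.U999.OD.TV.section_graph g n _ hg, hb⟩
  · intro B κ hn hκ
    obtain ⟨C, h⟩ := Pool.Agent.U999.OD.TV.up4 S hS B κ hn hκ
    refine ⟨C, fun n hn1 => ?_⟩
    obtain ⟨g, hg, hb⟩ := h n hn1
    exact ⟨Pool.Agent.U999.OD.TV.graph g (range n), Pool.Agent.U999.OD.TV.diff_graph g n,
      Pool.Agent.U999.OD.TV.section_graph g n _ hg, hb⟩

end Pool.Agent.Results.MP_169869_co.SectionVariation
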