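import Pool.Agent.U422.TameZ

/-!
# The arithmetic Kakeya conjecture for sets closed under Taylor operations

Let `T` be a finite set of at least two slopes in `ℚ ∪ {∞}`. A finite set `A ⊂ ℤ × ℤ` is called
*WNU-closed* if there are **some** (arbitrary) idempotent weak near unanimity operations on the
projections `π_r(A)`, `r ∈ T`, of a common arity `k ≥ 2`,
`t(x, …, x) = x`, `t(y, x, …, x) = t(x, y, x, …, x) = … = t(x, …, x, y)`,
such that `A` is closed under them. The operations are unrelated to the additive structure.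
Commutative idempotent binary operations (in particular semilattice operations) and near unanimity
operations of any arity are special cases, as are the operations `x_1 + … + x_k` of abelian groups
of an exponent dividing `k - 1`. By the theorem of Maróti and McKenzie, if `A` is closed under
idempotent operations on the projections which satisfy **any** nontrivial system of identities at
all (Taylor operations, Mal'cev operations, majority operations, …) then it is WNU-closed; this
remark is not used here.

1. `|A|^{|T| - 1} ≤ ∏_{r ∈ T} |π_r(A)|` for all WNU-closed sets. There is equality for suitable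
   sets of `q^{|T|}` points, for all `T` and `q`.
2. For every `ε > 0` there are a finite set `T` of slopes different from `-1` and `δ > 0` such that
   `|π_{-1}(A)| ≤ (max_r |π_r(A)|)^{1+ε}` for all `A` which are unions of at most `|π_{-1}(A)|^δ`
   WNU-closed sets.

Idea of the proof. Let `θ_r` be the kernels of the projections on `A`, and `ψ_r` the join of the other
`θ_s`. Consider the set `P` of all maps `A → A` which preserve all the `θ_r`, a minimal nontrivial
equivalence relation `δ ≤ θ_r ∧ ψ_r` preserved by `P`, and a map in `P` which does not collapse `δ`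
and has the smallest image `U`. It can be chosen to be a retraction `e`. As `δ ∧ θ_s = 0` for
`s ≠ r` and `δ ≤ ψ_r`, the relation `δ` satisfies the term condition; therefore `e t(x, a, …, a)`
does not collapse `δ` on `U` if `a ∈ U` has a nontrivial class, so it permutes `U`, and one obtains
a *local addition*: a binary operation `q` on `U`, preserving all the relations, with
`q(x, a) = x = q(a, x)`. If `(a, a + v) ∈ δ` and `c θ_s a`, then `q(a + v, c) = c + v`. So the
translation by `v` can be continued in `U` along the lines of all directions but the one of `r`, from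
`a` to `a + v`, to `a + 2 v` and so on; as `A` is finite, `v = 0`. So the `θ_r` are independent. In a
second step, with a minimal `δ` below the meet of all `ψ_r`, the local additions show that the
relations permute on the nontrivial part of `U`, which leads to a contradiction by the modular
law. So the meet of the `ψ_r` is `0`, and the inequality of Loomis and Whitney can be applied. (In
groups with torsion the theorem is false.)
-/

set_option autoImplicit false

namespace Pool.Agent.Results.MP_169869_co.TaylorClosed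

open Finset Pool.Agent.R181.Maj Pool.Agent.U422.Kak Pool.Agent.U422.Taylor Pool.Agent.U422.Tame

/-- the largest size of a projection of `A` with slope in `T` -/
def big (T : Finset (Option ℚ)) (A : Finset (ℤ × ℤ)) : ℕ := T.sup fun r => #(A.image (proj r))

theorem bound_big (T : Finset (Option ℚ)) (hT : 2 ≤ #T) (A : Finset (ℤ × ℤ))
    (hA : WNUClosed T A) : #A ^ (#T - 1) ≤ big T A ^ #T :=
  (bound_wnu T hT A hA).trans
    (prod_le_pow_card _ _ _ fun _ hr => Finset.le_sup (f := fun r => #(A.image (proj r))) hr)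

theorem big_mono (T : Finset (Option ℚ)) {A B : Finset (ℤ × ℤ)} (h : A ⊆ B) :
    big T A ≤ big T B :=
  Finset.sup_mono_fun fun _ _ => card_le_card (image_subset_image h)

theorem union_bound (ε : ℝ) (hε : 0 < ε) : ∃ T : Finset (Option ℚ), some (-1) ∉ T ∧
    ∃ δ : ℝ, 0 < δ ∧ ∀ (A : Finset (ℤ × ℤ)) (L : ℕ) (B : Fin L → Finset (ℤ × ℤ)),
      (∀ i, B i ⊆ A) → (∀ a ∈ A, ∃ i, a ∈ B i) →
      (∀ i, WNUClosed T (B i)) →
      (L : ℝ) ≤ (#(A.image (proj (some (-1)))) : ℝ) ^ δ →
      (#(A.image (proj (some (-1)))) : ℝ) ≤ (big T A : ℝ) ^ (1 + ε) := by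
  classical
  obtain ⟨k, hk⟩ := exists_nat_gt (2 / ε)
  set K : ℕ := k + 2 with hK
  set T : Finset (Option ℚ) := (range (K + 1)).image fun i : ℕ => some (i : ℚ) with hT
  have hTc : #T = K + 1 := by
    rw [hT, card_image_of_injective _ (fun a b h => by exact_mod_cast Option.some.inj h),
      card_range]
  have hKpos : (0 : ℝ) < K := by positivity
  have h1K : 1 / (K : ℝ) ≤ ε / 2 := by
    have h1 : 2 / ε < K := hk.trans (by rw [hK]; push_cast; linarith)
    rw [div_lt_iff₀ hε] at h1
    rw [div_le_div_iff₀ hKpos (by norm_num)]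
    linarith
  refine ⟨T, ?_, ε / (2 * (1 + ε)), by positivity, ?_⟩
  · rw [hT, mem_image]
    rintro ⟨i, -, hi⟩
    have h0 : (0 : ℚ) ≤ (i : ℚ) := Nat.cast_nonneg i
    rw [Option.some.inj hi] at h0
    norm_num at h0
  · intro A L B hBA hcov hB hL
    set δ : ℝ := ε / (2 * (1 + ε)) with hδ
    set M : ℝ := (big T A : ℝ) with hM
    set N : ℝ := (#(A.image (proj (some (-1)))) : ℝ) with hN
    rcases A.eq_empty_or_nonempty with rfl | hne
    · have : N = 0 := by rw [hN]; simp
      rw [this]
      positivity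
    have hM1 : (1 : ℝ) ≤ M := by
      have h0 : some ((0 : ℕ) : ℚ) ∈ T := by
        rw [hT]
        exact mem_image.2 ⟨0, mem_range.2 (by omega), rfl⟩
      have h1 : 1 ≤ #(A.image (proj (some ((0 : ℕ) : ℚ)))) := card_pos.2 (hne.image _)
      have h2 : #(A.image (proj (some ((0 : ℕ) : ℚ)))) ≤ big T A :=
        Finset.le_sup (f := fun r => #(A.image (proj r))) h0
      rw [hM]
      exact_mod_cast h1.trans h2
    have hN1 : (1 : ℝ) ≤ N := by
      have : 1 ≤ #(A.image (proj (some (-1)))) := card_pos.2 (hne.image _)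
      rw [hN]
      exact Nat.one_le_cast.2 this
    have h2 : ∀ i, (#(B i) : ℝ) ≤ M ^ (1 + 1 / (K : ℝ)) := by
      intro i
      have h3 := bound_big T (by rw [hTc]; omega) (B i) (hB i)
      rw [hTc, Nat.add_sub_cancel] at h3
      have h4 : #(B i) ^ K ≤ big T A ^ (K + 1) :=
        h3.trans (Nat.pow_le_pow_left (big_mono T (hBA i)) _)
      refine le_of_pow_le_pow_left₀ (n := K) (by omega) (by positivity) ?_
      have h5 : (M ^ (1 + 1 / (K : ℝ))) ^ K = M ^ (K + 1) := by
        rw [← Real.rpow_natCast, ← Real.rpow_mul (by positivity), ← Real.rpow_natCast]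
        congr 1
        push_cast
        field_simp
      rw [h5, hM, ← Nat.cast_pow, ← Nat.cast_pow]
      exact Nat.cast_le.2 h4
    have h6 : (#A : ℝ) ≤ L * M ^ (1 + 1 / (K : ℝ)) := by
      have h7 : #A ≤ ∑ i : Fin L, #(B i) := by
        have : A ⊆ univ.biUnion B := fun a ha => by
          obtain ⟨i, hi⟩ := hcov a ha
          exact mem_biUnion.2 ⟨i, mem_univ _, hi⟩
        exact (card_le_card this).trans card_biUnion_le
      calc (#A : ℝ) ≤ ((∑ i : Fin L, #(B i) : ℕ) : ℝ) := by exact_mod_cast h7
        _ = ∑ i : Fin L, (#(B i) : ℝ) := by push_cast; rfl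
        _ ≤ ∑ _i : Fin L, M ^ (1 + 1 / (K : ℝ)) := sum_le_sum fun i _ => h2 i
        _ = _ := by rw [sum_const, card_univ, Fintype.card_fin, nsmul_eq_mul]
    have h8 : N ≤ #A := by
      have : #(A.image (proj (some (-1)))) ≤ #A := card_image_le
      rw [hN]
      exact Nat.cast_le.2 this
    have h9 : N ≤ N ^ δ * M ^ (1 + ε / 2) := by
      refine h8.trans (h6.trans (mul_le_mul hL ?_ (by positivity) (by positivity)))
      exact Real.rpow_le_rpow_of_exponent_le hM1 (by linarith)
    have hδ1 : δ < 1 := by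
      rw [hδ, div_lt_one (by positivity)]
      linarith
    have hN0 : 0 < N := by linarith
    have h10 : N ^ (1 - δ) ≤ M ^ (1 + ε / 2) := by
      have h11 : N ^ δ * N ^ (1 - δ) = N := by
        rw [← Real.rpow_add hN0]
        simp
      have h12 : N ^ δ * N ^ (1 - δ) ≤ N ^ δ * M ^ (1 + ε / 2) := by rw [h11]; exact h9
      exact le_of_mul_le_mul_left h12 (Real.rpow_pos_of_pos hN0 _)
    have h13 : 1 - δ = (1 + ε / 2) / (1 + ε) := by
      rw [hδ]
      field_simp
      ring
    have h14 : (N ^ (1 - δ)) ^ (1 / (1 - δ)) ≤ (M ^ (1 + ε / 2)) ^ (1 / (1 - δ)) :=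
      Real.rpow_le_rpow (by positivity) h10 (by
        have : 0 < 1 - δ := by linarith
        positivity)
    rw [← Real.rpow_mul hN0.le, ← Real.rpow_mul (by linarith), mul_one_div_cancel (by linarith),
      Real.rpow_one] at h14
    refine h14.trans (le_of_eq ?_)
    congr 1
    rw [h13]
    field_simp

/-- **Theorem.** (1) `|A|^{|T| - 1} ≤ ∏_{r ∈ T} |π_r(A)|` for all finite sets `T` of at least two
slopes in `ℚ ∪ {∞}` and all WNU-closed `A`. (2) Equality is possible for all `T`, with
`|A| = q^{|T|}` for all `q`. (3) For every `ε > 0` there are a finite set `T` of slopes different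
from `-1` and `δ > 0` such that `|π_{-1}(A)| ≤ (max_{r ∈ T} |π_r(A)|)^{1 + ε}` for all `A` which are
unions of `L` WNU-closed sets with `L ≤ |π_{-1}(A)|^δ`. (4) Sets closed under commutative idempotent
binary operations, or under near unanimity operations of some arity `≥ 2`, are WNU-closed. -/
theorem result :
    (∀ T : Finset (Option ℚ), 2 ≤ #T → ∀ A : Finset (ℤ × ℤ), WNUClosed T A →
      #A ^ (#T - 1) ≤ ∏ r ∈ T, #(A.image (proj r))) ∧
    (∀ T : Finset (Option ℚ), 2 ≤ #T → ∀ q : ℕ, ∃ A : Finset (ℤ × ℤ),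
      WNUClosed T A ∧ #A = q ^ #T ∧ ∀ r ∈ T, #(A.image (proj r)) = q ^ (#T - 1)) ∧
    (∀ ε : ℝ, 0 < ε → ∃ T : Finset (Option ℚ), some (-1) ∉ T ∧ ∃ δ : ℝ, 0 < δ ∧
      ∀ (A : Finset (ℤ × ℤ)) (L : ℕ) (B : Fin L → Finset (ℤ × ℤ)),
        (∀ i, B i ⊆ A) → (∀ a ∈ A, ∃ i, a ∈ B i) → (∀ i, WNUClosed T (B i)) →
        (L : ℝ) ≤ (#(A.image (proj (some (-1)))) : ℝ) ^ δ →
        (#(A.image (proj (some (-1)))) : ℝ) ≤ (big T A : ℝ) ^ (1 + ε)) ∧
    (∀ (T : Finset (Option ℚ)) (A : Finset (ℤ × ℤ)) (m : Option ℚ → ℚ → ℚ → ℚ),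
      (∀ r ∈ T, (∀ x, m r x x = x) ∧ ∀ x y, m r x y = m r y x) →
      (∀ a ∈ A, ∀ b ∈ A, ∃ d ∈ A, ∀ r ∈ T, proj r d = m r (proj r a) (proj r b)) →
      WNUClosed T A) ∧
    (∀ (T : Finset (Option ℚ)) (A : Finset (ℤ × ℤ)) (k : ℕ) (t : Option ℚ → (Fin k → ℚ) → ℚ),
      2 ≤ k → (∀ r ∈ T, IsNU (t r)) →
      (∀ a : Fin k → ℤ × ℤ, (∀ j, a j ∈ A) → ∃ d ∈ A, ∀ r ∈ T,
        proj r d = t r fun j => proj r (a j)) → WNUClosed T A) := by
  refine ⟨bound_wnu, grid_wnu, union_bound, ?_, ?_⟩
  · intro T A m hm hA
    exact ⟨2, fun r x => m r (x 0) (x 1), le_rfl,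
      fun r hr => wnu_of_comm (hm r hr).2 (hm r hr).1, fun a ha => hA _ (ha 0) _ (ha 1)⟩
  · intro T A k t hk ht hA
    exact ⟨k, t, hk, fun r hr => wnu_of_nu (by omega) (ht r hr), hA⟩

end Pool.Agent.Results.MP_169869_co.TaylorClosed
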